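import Pool.Agent.R161.GR.Defs

open scoped ContDiff Matrix Matrix.Norms.Elementwise
open Filter

namespace Pool.Agent.R161.GR

/-- evaluation at a point, as an algebra homomorphism -/
def evP {n k : ℕ} (P : Gr n k) : Sm n k →ₐ[ℂ] ℂ :=
  (Pi.evalAlgHom ℂ (fun _ : Gr n k => ℂ) P).comp (Sm n k).val

theorem evP_apply {n k : ℕ} (P : Gr n k) (h : Sm n k) : evP P h = h.1 P := rfl

theorem map_ud {n κ : ℕ} {R R' : Type} [CommRing R] [Algebra ℂ R] [CommRing R'] [Algebra ℂ R']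
    (φ : R →ₐ[ℂ] R') (x y : Fin κ → Fin n → ℝ) (Q : Matrix (Fin n) (Fin n) R) (j : Fin κ) :
    φ (ud x y Q j) = ud x y (Q.map φ) j := by
  unfold ud
  rw [AlgHom.map_det]
  congr 1
  ext a b
  simp [AlgHom.mapMatrix_apply, map_sum, map_mul]

theorem Pb_map {n k : ℕ} (P : Gr n k) :
    (Pb n k).map (evP P) = P.1.map (fun t : ℝ => (t : ℂ)) := by
  ext a b
  rfl

theorem lw_mem {κ : ℕ} (ν : Fin κ → ℕ) : lw ν ∈ Lam κ := by
  constructor
  · intro a b hab
    unfold lw
    apply Nat.mul_le_mul_left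
    apply Finset.sum_le_sum_of_subset
    intro j hj
    simp only [Finset.mem_filter, Finset.mem_univ, true_and] at hj ⊢
    exact le_trans hab hj
  · intro a
    exact even_two_mul _

theorem main_of (hbox : S_box) (hext : S_ext) (hhw : S_hw) (hdens : S_dens) : Main := by
  intro n k hk hkn T hT hT0 S hS hsupp
  obtain ⟨x, y, hf, D, hD⟩ := hbox n k T hk hkn hT hT0 S hS hsupp
  have hκ : kap n k ≤ n / 2 := by
    unfold kap
    omega
  obtain ⟨x', y', hf', hx, hy⟩ := hext n (kap n k) hκ x y hf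
  apply hdens (kap n k) D (FSupp T) (fun l hl => hl.1)
  intro μ
  obtain ⟨ν, hν, hne⟩ := hD μ
  refine ⟨ν, hν, lw_mem ν, ?_⟩
  obtain ⟨hsm, hhw'⟩ := hhw n k (kap n k) hκ x' y' hf' ν
  have hx' : (fun a => x' (Fin.castLE hκ a)) = x := funext hx
  have hy' : (fun a => y' (Fin.castLE hκ a)) = y := funext hy
  refine ⟨res k _ hsm, Submodule.subset_span ⟨_, hsm, x', y', hf', hhw', rfl⟩, ?_⟩
  have e : res k _ hsm = ∏ j, ud x y (Pb n k) j ^ ν j := by
    apply Subtype.ext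
    funext P
    have h1 : (∏ j, ud x y (Pb n k) j ^ ν j : Sm n k).1 P =
        evP P (∏ j, ud x y (Pb n k) j ^ ν j) := rfl
    rw [h1, map_prod]
    simp only [map_pow, map_ud, Pb_map]
    show (∏ j, ud (fun a => x' (Fin.castLE hκ a)) (fun a => y' (Fin.castLE hκ a))
      (P.1.map (fun t : ℝ => (t : ℂ))) j ^ ν j) = _
    rw [hx', hy']
  rw [e]
  exact hne

end Pool.Agent.R161.GR
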