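import Mathlib

/-!
# Fourier support of finitely supported generalized functions on real Grassmannians

Definitions and statements of the pieces for MP_57d9fd_an.  Proofs of the pieces: see `NOTES.md`.
-/

open scoped ContDiff Matrix Matrix.Norms.Elementwise
open Filter

namespace Pool.Agent.R161.GR

/-- real `n × n` matrices (with the sup norm of the entries) -/
abbrev Mt (n : ℕ) := Matrix (Fin n) (Fin n) ℝ

/-- The real Grassmannian `Gr_k(ℝⁿ)`: a `k`-dimensional subspace is identified with the orthogonal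
projection onto it. -/
def Gr (n k : ℕ) : Set (Mt n) := {P | P * P = P ∧ Pᵀ = P ∧ P.rank = k}

/-- `C^∞(Gr_k(ℝⁿ))`, with complex values: the restrictions to the Grassmannian of the smooth
functions of a real matrix. -/
def Sm (n k : ℕ) : Subalgebra ℂ (Gr n k → ℂ) where
  carrier := {h | ∃ H : Mt n → ℂ, ContDiff ℝ ∞ H ∧ ∀ P : Gr n k, h P = H P}
  mul_mem' := by
    rintro a b ⟨A, hA, ha⟩ ⟨B, hB, hb⟩
    exact ⟨fun P => A P * B P, hA.mul hB, fun P => by rw [Pi.mul_apply, ha, hb]⟩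
  add_mem' := by
    rintro a b ⟨A, hA, ha⟩ ⟨B, hB, hb⟩
    exact ⟨fun P => A P + B P, hA.add hB, fun P => by rw [Pi.add_apply, ha, hb]⟩
  algebraMap_mem' := fun r => ⟨fun _ => r, contDiff_const, fun _ => rfl⟩

/-- restriction of a smooth function of a matrix to the Grassmannian -/
def res {n : ℕ} (k : ℕ) (H : Mt n → ℂ) (hH : ContDiff ℝ ∞ H) : Sm n k :=
  ⟨fun P => H P, H, hH, fun _ => rfl⟩

/-- Continuity of a linear functional on `C^∞(Gr)` (with its usual Fréchet topology, the quotient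
topology of `C^∞` of the matrix space): `T` is a generalized function. -/
def IsCts {n k : ℕ} (T : Sm n k →ₗ[ℂ] ℂ) : Prop :=
  ∃ K : Set (Mt n), IsCompact K ∧ ∃ N : ℕ, ∃ C : ℝ,
    ∀ (H : Mt n → ℂ) (hH : ContDiff ℝ ∞ H) (B : ℝ),
      (∀ j ≤ N, ∀ P ∈ K, ‖iteratedFDeriv ℝ j H P‖ ≤ B) → ‖T (res k H hH)‖ ≤ C * B

/-- The support of `T` is contained in `S`: `T` kills the test functions vanishing near `S`. -/
def SuppIn {n k : ℕ} (T : Sm n k →ₗ[ℂ] ℂ) (S : Set (Gr n k)) : Prop :=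
  ∀ h : Sm n k, (∃ U : Set (Gr n k), IsOpen U ∧ S ⊆ U ∧ ∀ P ∈ U, h.1 P = 0) → T h = 0

/-- `x_1, y_1, x_2, y_2, …` is an orthonormal family in `ℝⁿ`. -/
def IsFrame {r n : ℕ} (x y : Fin r → Fin n → ℝ) : Prop :=
  (∀ a b, ∑ p, x a p * x b p = if a = b then 1 else 0) ∧
  (∀ a b, ∑ p, y a p * y b p = if a = b then 1 else 0) ∧
  (∀ a b, ∑ p, x a p * y b p = 0)

/-- the matrix with columns `z_a = x_a + i y_a` -/
noncomputable def Zm {r n : ℕ} (x y : Fin r → Fin n → ℝ) : Matrix (Fin n) (Fin r) ℂ :=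
  Matrix.of fun p a => (x a p : ℂ) + Complex.I * (y a p : ℂ)

/-- `κ = min(k, n-k)` -/
abbrev kap (n k : ℕ) : ℕ := min k (n - k)

/-- The index set `Λ_κ`: weakly decreasing sequences of `κ` even natural numbers. -/
def Lam (κ : ℕ) : Set (Fin κ → ℕ) := {l | Antitone l ∧ ∀ a, Even (l a)}

/-- extension of a sequence by zeros -/
def ex {κ : ℕ} (r : ℕ) (l : Fin κ → ℕ) : Fin r → ℕ :=
  fun a => if h : a.1 < κ then l ⟨a.1, h⟩ else 0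

/-- `H` (a function of a real matrix, restricted to the Grassmannian) is a highest weight vector of
weight `w` for the infinitesimal action of `so(n, ℂ)` by conjugation, with respect to the Borel
subalgebra stabilizing the isotropic flag `span(z_1) ⊂ span(z_1, z_2) ⊂ …`, `z_a = x_a + i y_a`:
for `X = A + i B` in `so(n, ℂ)` with `X z_b = ∑_{a ≤ b} U_{ab} z_a` one has
`X · H = (∑_a w_a U_{aa}) H` on the Grassmannian. -/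
def IsHW {n : ℕ} (k : ℕ) (x y : Fin (n / 2) → Fin n → ℝ) (w : Fin (n / 2) → ℕ)
    (H : Mt n → ℂ) : Prop :=
  ∀ A B : Mt n, Aᵀ = -A → Bᵀ = -B → ∀ U : Matrix (Fin (n / 2)) (Fin (n / 2)) ℂ,
    (∀ a b, b < a → U a b = 0) →
    (A.map (fun t : ℝ => (t : ℂ)) + Complex.I • B.map (fun t : ℝ => (t : ℂ))) * Zm x y
      = Zm x y * U →
    ∀ P ∈ Gr n k, fderiv ℝ H P (P * A - A * P) + Complex.I * fderiv ℝ H P (P * B - B * P)
      = (∑ a, (w a : ℂ) * U a a) * H P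

/-- The `λ`-isotypic component of `C^∞(Gr)` under `O(n)`: the span of all highest weight vectors of
weight `λ` (for all orthonormal frames, i.e. of all `O(n)`-translates of highest weight vectors). -/
def Iso (n k : ℕ) (l : Fin (kap n k) → ℕ) : Submodule ℂ (Sm n k) :=
  Submodule.span ℂ {h | ∃ (H : Mt n → ℂ) (hH : ContDiff ℝ ∞ H) (x y : Fin (n / 2) → Fin n → ℝ),
    IsFrame x y ∧ IsHW k x y (ex (n / 2) l) H ∧ h = res k H hH}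

/-- The Fourier support: `f_λ ≠ 0`, i.e. `f` does not vanish on the `λ`-isotypic component. -/
def FSupp {n k : ℕ} (T : Sm n k →ₗ[ℂ] ℂ) : Set (Fin (kap n k) → ℕ) :=
  {l | l ∈ Lam (kap n k) ∧ ∃ h ∈ Iso n k l, T h ≠ 0}

/-- The positive answer to Q1. -/
def Main : Prop :=
  ∀ n k : ℕ, 1 ≤ k → k < n → ∀ T : Sm n k →ₗ[ℂ] ℂ, IsCts T → T ≠ 0 →
    ∀ S : Set (Gr n k), S.Finite → SuppIn T S →
      0 < liminf (fun m : ℕ => (Nat.card {l | l ∈ FSupp T ∧ ∑ a, l a ≤ 2 * m} : ℝ) /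
        (Nat.card {l | l ∈ Lam (kap n k) ∧ ∑ a, l a ≤ 2 * m} : ℝ)) atTop

/-! ## Analysis -/

/-- vanishing to order `N` at a point -/
def Van {n : ℕ} (N : ℕ) (P : Mt n) (H : Mt n → ℂ) : Prop :=
  ∀ j ≤ N, iteratedFDeriv ℝ j H P = 0

/-- (VAN) -/
def S_van : Prop := ∀ (n N : ℕ) (P : Mt n),
  (∀ A B : Mt n → ℂ, ContDiff ℝ ∞ A → ContDiff ℝ ∞ B → Van N P A → Van N P (fun x => A x * B x)) ∧
  (∀ (m : ℕ) (A : Fin m → Mt n → ℂ), (∀ i, ContDiff ℝ ∞ (A i)) → (∀ i, A i P = 0) → N < m →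
    Van N P (fun x => ∏ i, A i x)) ∧
  (∀ A : Mt n → ℂ, (∀ᶠ x in nhds P, A x = 0) → Van N P A) ∧
  (∀ A B : Mt n → ℂ, ContDiff ℝ ∞ A → ContDiff ℝ ∞ B → Van N P A → Van N P B →
    Van N P (fun x => A x + B x))

/-- (CUT) cut off functions with the right bounds -/
def S_cut : Prop := ∀ (n N : ℕ) (S : Set (Mt n)), S.Finite → ∃ C : ℝ, ∀ ε : ℝ, 0 < ε → ε ≤ 1 →
  ∃ χ : Mt n → ℂ, ContDiff ℝ ∞ χ ∧ (∀ P ∈ S, ∀ᶠ x in nhds P, χ x = 1) ∧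
    (∀ x, (∀ P ∈ S, ε ≤ ‖x - P‖) → ∀ᶠ z in nhds x, χ z = 0) ∧
    ∀ j ≤ N, ∀ x, ‖iteratedFDeriv ℝ j χ x‖ ≤ C / ε ^ j

/-- (TAY) Taylor bound -/
def S_tay : Prop := ∀ (n N : ℕ) (P : Mt n) (H : Mt n → ℂ), ContDiff ℝ ∞ H → Van N P H →
  ∃ M : ℝ, ∀ x, ‖x - P‖ ≤ 1 → ∀ j ≤ N, ‖iteratedFDeriv ℝ j H x‖ ≤ M * ‖x - P‖ ^ (N + 1 - j)

/-- (ORD) a generalized function with finite support has finite order -/
def S_ord : Prop := ∀ (n k : ℕ) (T : Sm n k →ₗ[ℂ] ℂ), IsCts T → ∀ S : Set (Gr n k), S.Finite →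
  SuppIn T S → ∃ N : ℕ, ∀ (H : Mt n → ℂ) (hH : ContDiff ℝ ∞ H),
    (∀ P ∈ S, Van N P.1 H) → T (res k H hH) = 0

/-- (HOM) the homogeneous part of the Taylor expansion -/
def S_hom : Prop := ∀ (n d : ℕ) (P : Mt n) (H : Mt n → ℂ), ContDiff ℝ ∞ H →
  (∀ j < d, iteratedFDeriv ℝ j H P = 0) →
  ∃ c : (Fin d → Fin n × Fin n) → ℂ,
    Van d P (fun x => H x - ∑ s : Fin d → Fin n × Fin n,
      c s * ∏ i, ((x (s i).1 (s i).2 : ℂ) - (P (s i).1 (s i).2 : ℂ)))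

/-- the coordinate functions, as a matrix with entries in the algebra `C^∞(Gr)` -/
def Pb (n k : ℕ) : Matrix (Fin n) (Fin n) (Sm n k) :=
  Matrix.of fun a b => ⟨fun P => (P.1 a b : ℂ), fun P => (P a b : ℂ), by
    exact Complex.ofRealCLM.contDiff.comp
      (((ContinuousLinearMap.proj (R := ℝ) (φ := fun _ : Fin n => ℝ) b).comp
        (ContinuousLinearMap.proj (R := ℝ) (φ := fun _ : Fin n => (Fin n → ℝ)) a)).contDiff),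
    fun _ => rfl⟩

/-- (TOP) localization at one point `P₁` and the order at this point -/
def S_top : Prop := ∀ (n k : ℕ) (T : Sm n k →ₗ[ℂ] ℂ) (S : Set (Gr n k)), S.Finite →
  SuppIn T S → T ≠ 0 → ∀ N : ℕ, (∀ (H : Mt n → ℂ) (hH : ContDiff ℝ ∞ H),
    (∀ P ∈ S, Van N P.1 H) → T (res k H hH) = 0) →
  ∃ P₁ ∈ S, ∃ (g : Mt n → ℂ) (hg : ContDiff ℝ ∞ g),
    (∀ᶠ x in nhds P₁.1, g x = 1) ∧ (∀ P ∈ S, P ≠ P₁ → ∀ᶠ x in nhds P.1, g x = 0) ∧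
    ∃ d : ℕ, (∀ A : Fin (d + 1) → Sm n k, (∀ i, (A i).1 P₁ = 0) →
        T (res k g hg * ∏ i, A i) = 0) ∧
      ∃ s : Fin d → Fin n × Fin n, T (res k g hg * ∏ i, (Pb n k (s i).1 (s i).2 -
        algebraMap ℂ (Sm n k) (P₁.1 (s i).1 (s i).2 : ℂ))) ≠ 0

/-! ## Algebra -/

/-- `u_j = det (z_aᵀ 𝐏 z_b)_{a, b ≤ j}` for a matrix `𝐏` with entries in a commutative
`ℂ`-algebra -/
noncomputable def ud {n κ : ℕ} {R : Type} [CommRing R] [Algebra ℂ R] (x y : Fin κ → Fin n → ℝ)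
    (Q : Matrix (Fin n) (Fin n) R) (j : Fin κ) : R :=
  Matrix.det (Matrix.of fun a b : {a : Fin κ // a ≤ j} =>
    ∑ p, ∑ q, algebraMap ℂ R (Zm x y p a.1) * Q p q * algebraMap ℂ R (Zm x y q b.1))

/-- the frame is adapted to the projection `P` -/
def Adapted {n κ : ℕ} (P : Mt n) (x y : Fin κ → Fin n → ℝ) : Prop :=
  IsFrame x y ∧ (∀ a, P.mulVec (x a) = x a) ∧ (∀ a, P.mulVec (y a) = 0)

/-- (BLK) the diagonal blocks of `δ = 𝐏 - P₁` lie in the square of the ideal, and `δ` is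
symmetric -/
def S_blk : Prop := ∀ (n : ℕ) (P₁ : Mt n), P₁ * P₁ = P₁ → P₁ᵀ = P₁ →
  ∀ (R : Type) [CommRing R] [Algebra ℂ R] (Q : Matrix (Fin n) (Fin n) R), Q * Q = Q → Qᵀ = Q →
  ∀ m : Ideal R, (∀ a b, Q a b - algebraMap ℂ R (P₁ a b : ℂ) ∈ m) →
  ∀ v w : Fin n → ℝ,
    (P₁.mulVec v = v → P₁.mulVec w = w → ∑ p, ∑ q, algebraMap ℂ R ((v p : ℂ) * (w q : ℂ)) *
      (Q p q - algebraMap ℂ R (P₁ p q : ℂ)) ∈ m ^ 2) ∧
    (P₁.mulVec v = 0 → P₁.mulVec w = 0 → ∑ p, ∑ q, algebraMap ℂ R ((v p : ℂ) * (w q : ℂ)) *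
      (Q p q - algebraMap ℂ R (P₁ p q : ℂ)) ∈ m ^ 2) ∧
    ∑ p, ∑ q, algebraMap ℂ R ((v p : ℂ) * (w q : ℂ)) *
        (Q p q - algebraMap ℂ R (P₁ p q : ℂ)) =
      ∑ p, ∑ q, algebraMap ℂ R ((w p : ℂ) * (v q : ℂ)) *
        (Q p q - algebraMap ℂ R (P₁ p q : ℂ))

/-- (C1) modulo the square of the maximal ideal only the blocks `yᵀ δ x` matter -/
def S_c1 : Prop := ∀ (n : ℕ) (P₁ : Mt n), P₁ * P₁ = P₁ → P₁ᵀ = P₁ →
  ∀ (R : Type) [CommRing R] [Algebra ℂ R] (Q : Matrix (Fin n) (Fin n) R), Q * Q = Q → Qᵀ = Q →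
  ∀ m : Ideal R, (∀ a b, Q a b - algebraMap ℂ R (P₁ a b : ℂ) ∈ m) →
  ∀ (g : R →ₗ[ℂ] ℂ) (d : ℕ), (∀ r ∈ m ^ (d + 1), g r = 0) →
  ∀ s : Fin d → Fin n × Fin n,
    g (∏ i, (Q (s i).1 (s i).2 - algebraMap ℂ R (P₁ (s i).1 (s i).2 : ℂ))) ≠ 0 →
  ∃ X Y : Fin d → Fin n → ℝ, (∀ i, P₁.mulVec (X i) = X i) ∧ (∀ i, P₁.mulVec (Y i) = 0) ∧
    g (∏ i, ∑ p, ∑ q, algebraMap ℂ R ((Y i p : ℂ) * (X i q : ℂ)) *
      (Q p q - algebraMap ℂ R (P₁ p q : ℂ))) ≠ 0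

/-- (C2) polarization -/
def S_c2 : Prop := ∀ (R : Type) [CommRing R] [Algebra ℂ R] (g : R →ₗ[ℂ] ℂ) (d : ℕ)
  (v : Fin d → R), g (∏ i, v i) ≠ 0 →
  ∃ t : Fin d → ℝ, g ((∑ i, algebraMap ℂ R (t i : ℂ) * v i) ^ d) ≠ 0

/-- (SVD) -/
def S_svd : Prop := ∀ (n k : ℕ) (P₁ : Mt n), P₁ ∈ Gr n k → ∀ ξ : Mt n,
  ξ * P₁ = ξ → P₁ * ξ = 0 →
  ∃ x y : Fin (kap n k) → Fin n → ℝ, Adapted P₁ x y ∧ ∃ σ : Fin (kap n k) → ℝ,
    ∀ p q, ξ p q = ∑ a, σ a * y a p * x a q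

/-- (DET) first order expansion of the determinant -/
def S_det : Prop := ∀ (R : Type) [CommRing R] (ι : Type) [Fintype ι] [DecidableEq ι] (m : Ideal R)
  (W : Matrix ι ι R), (∀ a b, W a b ∈ m) → (1 + W).det - 1 - W.trace ∈ m ^ 2

/-- (CORE) -/
def S_core : Prop := ∀ (n k : ℕ) (P₁ : Mt n), P₁ ∈ Gr n k →
  ∀ (R : Type) [CommRing R] [Algebra ℂ R] (Q : Matrix (Fin n) (Fin n) R), Q * Q = Q → Qᵀ = Q →
  ∀ m : Ideal R, (∀ a b, Q a b - algebraMap ℂ R (P₁ a b : ℂ) ∈ m) →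
  ∀ (g : R →ₗ[ℂ] ℂ) (d : ℕ), (∀ r ∈ m ^ (d + 1), g r = 0) →
  (∃ s : Fin d → Fin n × Fin n,
    g (∏ i, (Q (s i).1 (s i).2 - algebraMap ℂ R (P₁ (s i).1 (s i).2 : ℂ))) ≠ 0) →
  ∃ x y : Fin (kap n k) → Fin n → ℝ, Adapted P₁ x y ∧ ∃ c : Fin (kap n k) → ℂ,
    g ((∑ j, algebraMap ℂ R (c j) * (ud x y Q j - 1)) ^ d) ≠ 0

/-- (SEP) an adapted frame separates its point from all the others -/
def S_sep : Prop := ∀ (n k : ℕ) (P₁ P : Mt n), P₁ ∈ Gr n k → P ∈ Gr n k →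
  ∀ x y : Fin (kap n k) → Fin n → ℝ, Adapted P₁ x y →
    (∀ j, ud x y (P.map (fun t : ℝ => (t : ℂ))) j = 1) → P = P₁

/-- (BOX) -/
def S_box : Prop := ∀ (n k : ℕ) (T : Sm n k →ₗ[ℂ] ℂ), 1 ≤ k → k < n → IsCts T → T ≠ 0 →
  ∀ S : Set (Gr n k), S.Finite → SuppIn T S →
  ∃ x y : Fin (kap n k) → Fin n → ℝ, IsFrame x y ∧ ∃ D : ℕ, ∀ μ : Fin (kap n k) → ℕ,
    ∃ ν : Fin (kap n k) → ℕ, (∀ j, μ j ≤ ν j ∧ ν j ≤ μ j + D) ∧
      T (∏ j, ud x y (Pb n k) j ^ ν j) ≠ 0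

/-! ## Highest weight vectors -/

/-- the weight attached to the exponents `ν` -/
def lw {κ : ℕ} (ν : Fin κ → ℕ) : Fin κ → ℕ := fun a => 2 * ∑ j ∈ Finset.univ.filter (a ≤ ·), ν j

/-- (EXT) extension of frames -/
def S_ext : Prop := ∀ (n κ : ℕ) (h : κ ≤ n / 2) (x y : Fin κ → Fin n → ℝ), IsFrame x y →
  ∃ x' y' : Fin (n / 2) → Fin n → ℝ, IsFrame x' y' ∧ (∀ a, x' (Fin.castLE h a) = x a) ∧
    (∀ a, y' (Fin.castLE h a) = y a)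

/-- (HW) products of the `u_j` are highest weight vectors -/
def S_hw : Prop := ∀ (n k κ : ℕ) (h : κ ≤ n / 2) (x y : Fin (n / 2) → Fin n → ℝ), IsFrame x y →
  ∀ ν : Fin κ → ℕ,
    ContDiff ℝ ∞ (fun P : Mt n => ∏ j, ud (fun a => x (Fin.castLE h a))
      (fun a => y (Fin.castLE h a)) (P.map (fun t : ℝ => (t : ℂ))) j ^ ν j) ∧
    IsHW k x y (ex (n / 2) (lw ν)) (fun P : Mt n => ∏ j, ud (fun a => x (Fin.castLE h a))
      (fun a => y (Fin.castLE h a)) (P.map (fun t : ℝ => (t : ℂ))) j ^ ν j)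

/-! ## Counting -/

/-- (DENS) -/
def S_dens : Prop := ∀ (κ : ℕ) (D : ℕ) (A : Set (Fin κ → ℕ)), A ⊆ Lam κ →
  (∀ μ : Fin κ → ℕ, ∃ ν : Fin κ → ℕ, (∀ j, μ j ≤ ν j ∧ ν j ≤ μ j + D) ∧ lw ν ∈ A) →
  0 < liminf (fun m : ℕ => (Nat.card {l | l ∈ A ∧ ∑ a, l a ≤ 2 * m} : ℝ) /
        (Nat.card {l | l ∈ Lam κ ∧ ∑ a, l a ≤ 2 * m} : ℝ)) atTop

end Pool.Agent.R161.GR
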